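import Mathlib
import Pool.Agent.J4H9.BF.Stm

/-!
# A pure cycle of length three (project BF, piece TRI)

The Frattini argument of Jordan's theorem on cycles of prime length, for groups which permute the
pairs of an involution: a Sylow subgroup of the fixing subgroup of the other elements consists of
the powers of the cycle, so every permutation of the other pairs is induced by an element which
normalises the cycle, and a commutator of two such elements commutes with it.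
-/

set_option autoImplicit false

namespace Pool.Agent.J4H72.BF

open Pool.Agent.J4H9.BF

section

variable {G X : Type} [Group G] [MulAction G X] {bar : X → X} {r : ℕ} {τ : G} {x₀ : X}

/-- the elements of the pairs of the cycle -/
def CC (bar : X → X) (τ : G) (x₀ : X) : Set X := {x | ∃ k : ℕ, x = τ ^ k • x₀ ∨ x = bar (τ ^ k • x₀)}

/-- the cycle -/
def OO (τ : G) (x₀ : X) : Set X := Set.range (fun k : ℕ => τ ^ k • x₀)

theorem bar_inj (hs : Sgn G X bar) : Function.Injective bar := by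
  intro x y h
  have := congrArg bar h
  rwa [hs.bb, hs.bb] at this

theorem per_mul (h : PureCyc G X bar r τ x₀) (n : ℕ) : τ ^ (r * n) • x₀ = x₀ := by
  induction n with
  | zero => simp
  | succ n ih => rw [Nat.mul_succ, pow_add, mul_smul, h.per, ih]

theorem pow_mod (h : PureCyc G X bar r τ x₀) (k : ℕ) : τ ^ k • x₀ = τ ^ (k % r) • x₀ := by
  conv_lhs => rw [← Nat.mod_add_div k r, pow_add, mul_smul, per_mul h]

theorem OO_eq (hr : 0 < r) (h : PureCyc G X bar r τ x₀) :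
    OO τ x₀ = (fun k : ℕ => τ ^ k • x₀) '' (Finset.range r : Set ℕ) := by
  ext x
  constructor
  · rintro ⟨k, rfl⟩
    exact ⟨k % r, by simpa using Nat.mod_lt _ hr, (pow_mod h k).symm⟩
  · rintro ⟨k, _, rfl⟩
    exact ⟨k, rfl⟩

theorem OO_card (hr : 0 < r) (h : PureCyc G X bar r τ x₀) : (OO τ x₀).ncard = r := by
  rw [OO_eq hr h, Set.ncard_image_of_injOn]
  · rw [Set.ncard_coe_finset, Finset.card_range]
  · intro k hk l hl hkl
    exact h.inj k (by simpa using hk) l (by simpa using hl) hkl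

theorem CC_eq : CC bar τ x₀ = OO τ x₀ ∪ bar '' OO τ x₀ := by
  ext x
  constructor
  · rintro ⟨k, h | h⟩
    · exact Or.inl ⟨k, h.symm⟩
    · exact Or.inr ⟨τ ^ k • x₀, ⟨k, rfl⟩, h.symm⟩
  · rintro (⟨k, h⟩ | ⟨_, ⟨k, rfl⟩, h⟩)
    · exact ⟨k, Or.inl h.symm⟩
    · exact ⟨k, Or.inr h.symm⟩

theorem CC_card (hs : Sgn G X bar) [Finite X] (hr : 0 < r) (h : PureCyc G X bar r τ x₀) :
    (CC bar τ x₀).ncard = 2 * r := by
  rw [CC_eq, Set.ncard_union_eq _ (Set.toFinite _) (Set.toFinite _),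
    Set.ncard_image_of_injective _ (bar_inj hs), OO_card hr h]
  · ring
  · rw [Set.disjoint_left]
    rintro x ⟨k, rfl⟩ ⟨_, ⟨l, rfl⟩, h1⟩
    exact h.ne k l h1.symm

/-- the cycle has the order `r` as a permutation -/
theorem tau_r (hs : Sgn G X bar) (h : PureCyc G X bar r τ x₀) (x : X) : τ ^ r • x = x := by
  have h1 : ∀ k : ℕ, τ ^ r • τ ^ k • x₀ = τ ^ k • x₀ := by
    intro k
    rw [← mul_smul, ← pow_add, add_comm, pow_add, mul_smul, h.per]
  rcases h.fix x with ⟨k, hk | hk⟩ | hx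
  · rw [hk, h1]
  · rw [hk, ← hs.comm, h1]
  · have : ∀ n : ℕ, τ ^ n • x = x := by
      intro n
      induction n with
      | zero => simp
      | succ n ih => rw [pow_succ, mul_smul, hx, ih]
    exact this r

/-- the permutations from `G` which fix all elements outside the cycle -/
def HH (G : Type) {X : Type} [Group G] [MulAction G X] (C : Set X) : Subgroup (Equiv.Perm X) :=
  (MulAction.toPermHom G X).range ⊓ fixingSubgroup (Equiv.Perm X) Cᶜ

theorem mem_HH {C : Set X} {π : Equiv.Perm X} :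
    π ∈ HH G C ↔ (∃ g : G, MulAction.toPermHom G X g = π) ∧ ∀ x, x ∉ C → π x = x := by
  unfold HH
  rw [Subgroup.mem_inf, MonoidHom.mem_range, mem_fixingSubgroup_iff]
  rfl

end

def S_SYL : Prop := ∀ (G X : Type) [Group G] [Finite G] [MulAction G X] [Finite X] (bar : X → X) (r : ℕ),
  Sgn G X bar → r.Prime → 5 ≤ r → ∀ (τ : G) (x₀ : X), PureCyc G X bar r τ x₀ → ∀ u : G,
    (∀ x, (∃ k : ℕ, x = τ ^ k • x₀ ∨ x = bar (τ ^ k • x₀)) → ∃ k : ℕ, u • x = τ ^ k • x₀ ∨ u • x = bar (τ ^ k • x₀)) →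
    ∃ (η : G) (i : ℤ), (∀ x, (¬ ∃ k : ℕ, x = τ ^ k • x₀ ∨ x = bar (τ ^ k • x₀)) → η • x = x) ∧
      ∀ x : X, (η * u * τ * (η * u)⁻¹) • x = τ ^ i • x

/-- a Sylow subgroup which contains the cycle consists of its powers -/
theorem syl_le {G X : Type} [Group G] [MulAction G X] [Finite X] {bar : X → X} {r : ℕ} [hrp : Fact r.Prime] (h5 : 5 ≤ r)
    {τ : G} {x₀ : X} (hs : Sgn G X bar) (h : PureCyc G X bar r τ x₀)
    (S : Subgroup (Equiv.Perm X)) (hS : IsPGroup r S) (hSH : S ≤ HH G (CC bar τ x₀))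
    (hτ : MulAction.toPermHom G X τ ∈ S) {s : Equiv.Perm X} (hsS : s ∈ S) :
    ∃ k : ℕ, s = MulAction.toPermHom G X τ ^ k := by
  classical
  have hr0 : 0 < r := by omega
  haveI : Finite S := inferInstance
  have hfix : ∀ x, x ∉ CC bar τ x₀ → ∀ σ ∈ S, σ x = x := fun x hx σ hσ => (mem_HH.1 (hSH hσ)).2 x hx
  have hcomm : ∀ x, ∀ σ ∈ S, bar (σ x) = σ (bar x) := by
    intro x σ hσ
    obtain ⟨⟨g, rfl⟩, _⟩ := mem_HH.1 (hSH hσ)
    exact hs.comm g x
  -- the orbit of `x₀`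
  have hx0 : x₀ ∈ CC bar τ x₀ := ⟨0, Or.inl (by simp)⟩
  have hsub1 : MulAction.orbit S x₀ ⊆ CC bar τ x₀ := by
    rintro _ ⟨σ, rfl⟩
    by_contra hc
    have h1 := hfix _ hc (σ : Equiv.Perm X)⁻¹ (S.inv_mem σ.2)
    have h2 : (σ : Equiv.Perm X)⁻¹ ((fun m : S => m • x₀) σ) = x₀ := by
      change (σ : Equiv.Perm X)⁻¹ ((σ : Equiv.Perm X) x₀) = x₀
      simp
    rw [h2] at h1
    rw [← h1] at hc
    exact hc hx0
  have hsub2 : OO τ x₀ ⊆ MulAction.orbit S x₀ := by
    rintro _ ⟨k, rfl⟩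
    refine ⟨⟨MulAction.toPermHom G X τ ^ k, S.pow_mem hτ k⟩, ?_⟩
    change (MulAction.toPermHom G X τ ^ k) x₀ = τ ^ k • x₀
    rw [← map_pow]
    rfl
  obtain ⟨n, hn⟩ := hS.card_orbit x₀
  have hn' : (MulAction.orbit S x₀).ncard = r ^ n := hn
  have hle1 : (MulAction.orbit S x₀).ncard ≤ 2 * r := by
    rw [← CC_card hs hr0 h]
    exact Set.ncard_le_ncard hsub1 (Set.toFinite _)
  have hle2 : r ≤ (MulAction.orbit S x₀).ncard := by
    conv_lhs => rw [← OO_card hr0 h]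
    exact Set.ncard_le_ncard hsub2 (Set.toFinite _)
  have hn1 : n = 1 := by
    rw [hn'] at hle1 hle2
    rcases n with _ | _ | n
    · simp at hle2; omega
    · rfl
    · exfalso
      have : r ^ 2 ≤ r ^ (n + 1 + 1) := Nat.pow_le_pow_right hr0 (by omega)
      nlinarith
  have hcard : (MulAction.orbit S x₀).ncard = r := by rw [hn', hn1, pow_one]
  have hOO : OO τ x₀ = MulAction.orbit S x₀ :=
    Set.eq_of_subset_of_ncard_le hsub2 (by rw [hcard, OO_card hr0 h]) (Set.toFinite _)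
  -- move `s x₀` back
  obtain ⟨k, hk⟩ : ∃ k : ℕ, τ ^ k • x₀ = s x₀ := by
    have h1 : s x₀ ∈ MulAction.orbit S x₀ := ⟨⟨s, hsS⟩, rfl⟩
    rw [← hOO] at h1
    exact h1
  obtain ⟨T, hT⟩ : ∃ T : Equiv.Perm X, T = MulAction.toPermHom G X τ := ⟨_, rfl⟩
  have hTx : ∀ (j : ℕ) (x : X), (T ^ j) x = τ ^ j • x := by
    intro j x
    rw [hT, ← map_pow]
    rfl
  obtain ⟨s', hs'⟩ : ∃ s' : Equiv.Perm X, s' = (T ^ k)⁻¹ * s := ⟨_, rfl⟩
  have hs'S : s' ∈ S := by
    rw [hs', hT]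
    exact S.mul_mem (S.inv_mem (S.pow_mem hτ k)) hsS
  have hs'x : s' x₀ = x₀ := by
    rw [hs', Equiv.Perm.mul_apply, Equiv.Perm.inv_eq_iff_eq, hTx, hk]
  -- it acts trivially on the orbit
  have htriv : ∀ x ∈ MulAction.orbit S x₀, s' x = x := by
    have hZ : IsPGroup r (Subgroup.zpowers (⟨s', hs'S⟩ : S)) := hS.to_subgroup _
    have h1 := hZ.card_modEq_card_fixedPoints (MulAction.orbit S x₀)
    have h2 : Nat.card (MulAction.orbit S x₀) = r := hcard
    rw [h2] at h1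
    have h3 : Nat.card (MulAction.fixedPoints (Subgroup.zpowers (⟨s', hs'S⟩ : S)) (MulAction.orbit S x₀)) ≤ r := by
      conv_rhs => rw [← h2]
      exact Nat.card_le_card_of_injective (fun a => (a : MulAction.orbit S x₀)) Subtype.val_injective
    have hfx : ∀ y : MulAction.orbit S x₀, (s' (y : X) = (y : X)) →
        y ∈ MulAction.fixedPoints (Subgroup.zpowers (⟨s', hs'S⟩ : S)) (MulAction.orbit S x₀) := by
      intro y hy
      rw [MulAction.mem_fixedPoints]
      rintro ⟨m, hm⟩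
      obtain ⟨j, rfl⟩ := Subgroup.mem_zpowers_iff.1 hm
      apply Subtype.ext
      have h4 : ∀ j : ℤ, (s' ^ j) (y : X) = (y : X) := by
        intro j
        exact Function.IsFixedPt.perm_zpow (e := s') hy j
      exact h4 j
    have h5' : 0 < Nat.card (MulAction.fixedPoints (Subgroup.zpowers (⟨s', hs'S⟩ : S)) (MulAction.orbit S x₀)) := by
      haveI : Nonempty (MulAction.fixedPoints (Subgroup.zpowers (⟨s', hs'S⟩ : S)) (MulAction.orbit S x₀)) :=
        ⟨⟨⟨x₀, MulAction.mem_orbit_self x₀⟩, hfx _ hs'x⟩⟩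
      exact Nat.card_pos
    have h6 : Nat.card (MulAction.fixedPoints (Subgroup.zpowers (⟨s', hs'S⟩ : S)) (MulAction.orbit S x₀)) = r := by
      have h7 : r ∣ Nat.card (MulAction.fixedPoints (Subgroup.zpowers (⟨s', hs'S⟩ : S)) (MulAction.orbit S x₀)) := by
        have := (Nat.modEq_zero_iff_dvd (n := r)).1 (h1.symm.trans ((Nat.modEq_zero_iff_dvd).2 (dvd_refl r)))
        exact this
      exact le_antisymm h3 (Nat.le_of_dvd h5' h7)
    have h8 : MulAction.fixedPoints (Subgroup.zpowers (⟨s', hs'S⟩ : S)) (MulAction.orbit S x₀) = Set.univ := by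
      apply Set.eq_of_subset_of_ncard_le (Set.subset_univ _) _ (Set.toFinite _)
      rw [Set.ncard_univ, h2]
      exact h6.ge
    intro x hx
    have h9 : (⟨x, hx⟩ : MulAction.orbit S x₀) ∈ MulAction.fixedPoints (Subgroup.zpowers (⟨s', hs'S⟩ : S)) (MulAction.orbit S x₀) := by
      rw [h8]; trivial
    have h10 := (MulAction.mem_fixedPoints.1 h9) ⟨⟨s', hs'S⟩, Subgroup.mem_zpowers _⟩
    exact congrArg Subtype.val h10
  have hone : s' = 1 := by
    ext x
    rw [Equiv.Perm.one_apply]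
    by_cases hx : x ∈ CC bar τ x₀
    · rw [CC_eq, hOO] at hx
      rcases hx with hx | ⟨y, hy, rfl⟩
      · exact htriv x hx
      · rw [← hcomm y s' hs'S, htriv y hy]
    · exact hfix x hx s' hs'S
  refine ⟨k, ?_⟩
  rw [← hT]
  rw [hs', inv_mul_eq_one] at hone
  exact hone.symm

theorem t_SYL : S_SYL := by
  intro G X _ _ _ _ bar r hs hr h5 τ x₀ h u hu
  classical
  haveI : Fact r.Prime := ⟨hr⟩
  have hr0 : 0 < r := by omega
  obtain ⟨C, hC⟩ : ∃ C : Set X, C = CC bar τ x₀ := ⟨_, rfl⟩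
  obtain ⟨φ, hφ⟩ : ∃ φ : G →* Equiv.Perm X, φ = MulAction.toPermHom G X := ⟨_, rfl⟩
  have hφx : ∀ (g : G) (x : X), φ g x = g • x := by intro g x; rw [hφ]; rfl
  obtain ⟨H, hH⟩ : ∃ H : Subgroup (Equiv.Perm X), H = HH G C := ⟨_, rfl⟩
  have hmem : ∀ π : Equiv.Perm X, π ∈ H ↔ (∃ g : G, φ g = π) ∧ ∀ x, x ∉ C → π x = x := by
    intro π; rw [hH, hφ]; exact mem_HH
  have huC : ∀ x, x ∉ C → u⁻¹ • x ∉ C := by
    intro x hx hc
    apply hx
    rw [hC] at hc ⊢
    obtain ⟨k, hk⟩ := hu _ hc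
    rw [smul_inv_smul] at hk
    exact ⟨k, hk⟩
  have hτC : ∀ x, x ∉ C → τ • x = x := by
    intro x hx
    rcases h.fix x with h1 | h1
    · rw [hC] at hx; exact absurd h1 hx
    · exact h1
  have ht : φ τ ∈ H := (hmem _).2 ⟨⟨τ, rfl⟩, fun x hx => by rw [hφx]; exact hτC x hx⟩
  have ht' : φ (u * τ * u⁻¹) ∈ H := (hmem _).2 ⟨⟨_, rfl⟩, fun x hx => by
    rw [hφx, mul_smul, mul_smul, hτC _ (huC x hx), smul_inv_smul]⟩
  have htr : φ τ ^ r = 1 := by
    ext x
    rw [← map_pow, hφx, Equiv.Perm.one_apply]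
    exact tau_r hs h x
  have htr' : φ (u * τ * u⁻¹) ^ r = 1 := by
    rw [map_mul, map_mul, map_inv, conj_pow, htr]
    group
  -- cyclic groups of order r
  have hpg : ∀ a : H, a ^ r = 1 → IsPGroup r (Subgroup.zpowers a) := by
    intro a ha
    rintro ⟨b, hb⟩
    obtain ⟨j, rfl⟩ := Subgroup.mem_zpowers_iff.1 hb
    refine ⟨1, ?_⟩
    apply Subtype.ext
    change (a ^ j) ^ (r ^ 1) = 1
    rw [pow_one, ← zpow_natCast, ← zpow_mul, mul_comm, zpow_mul, zpow_natCast, ha, one_zpow]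
  obtain ⟨S, hS⟩ := (hpg ⟨φ τ, ht⟩ (Subtype.ext htr)).exists_le_sylow
  obtain ⟨S', hS'⟩ := (hpg ⟨φ (u * τ * u⁻¹), ht'⟩ (Subtype.ext htr')).exists_le_sylow
  obtain ⟨η', hη'⟩ := MulAction.exists_smul_eq H S' S
  have h1 : η' * ⟨φ (u * τ * u⁻¹), ht'⟩ * η'⁻¹ ∈ (S : Subgroup H) := by
    rw [← hη', Sylow.coe_subgroup_smul]
    have h2 := Subgroup.smul_mem_pointwise_smul (⟨φ (u * τ * u⁻¹), ht'⟩ : H) (MulAut.conj η') (S' : Subgroup H)
      (hS' (Subgroup.mem_zpowers _))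
    simpa [MulAut.smul_def, MulAut.conj_apply] using h2
  obtain ⟨⟨η, hη⟩, hηC⟩ := (hmem _).1 η'.2
  -- the Sylow subgroup as a group of permutations
  have h2 := syl_le (r := r) h5 hs h ((S : Subgroup H).map H.subtype)
    (by exact IsPGroup.map S.isPGroup' H.subtype)
    (by
      rw [← hC, ← hH]
      rintro _ ⟨a, _, rfl⟩
      exact a.2)
    (by
      rw [← hφ]
      exact ⟨⟨φ τ, ht⟩, hS (Subgroup.mem_zpowers _), rfl⟩)
    (s := φ (η * u * τ * (η * u)⁻¹))
    (by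
      refine ⟨_, h1, ?_⟩
      change (η' : Equiv.Perm X) * φ (u * τ * u⁻¹) * (η' : Equiv.Perm X)⁻¹ = _
      rw [← hη, ← map_inv, ← map_mul, ← map_mul]
      congr 1
      group)
  obtain ⟨k, hk⟩ := h2
  refine ⟨η, (k : ℤ), ?_, ?_⟩
  · intro x hx
    have h3 := hηC x (by rw [hC]; exact hx)
    rw [← hη, hφx] at h3
    exact h3
  · intro x
    have h3 := congrArg (fun π : Equiv.Perm X => π x) hk
    rw [hφx, ← hφ, ← map_pow, hφx] at h3
    rw [h3, zpow_natCast]

section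

variable {G X : Type} [Group G] [MulAction G X] {bar : X → X} {m : ℕ}

/-- `σ` induces the permutation `π` of the pairs of the `e i` -/
def Ind (bar : X → X) (e : Fin m → X) (σ : G) (π : Equiv.Perm (Fin m)) : Prop :=
  ∀ i, σ • e i = e (π i) ∨ σ • e i = bar (e (π i))

theorem Ind.mul (hs : Sgn G X bar) {e : Fin m → X} {σ τ : G} {π ρ : Equiv.Perm (Fin m)}
    (h1 : Ind bar e σ π) (h2 : Ind bar e τ ρ) : Ind bar e (σ * τ) (π * ρ) := by
  intro i
  rw [mul_smul, Equiv.Perm.mul_apply]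
  rcases h2 i with h | h
  · rw [h]; exact h1 _
  · rw [h, ← hs.comm]
    rcases h1 (ρ i) with h3 | h3
    · right; rw [h3]
    · left; rw [h3, hs.bb]

theorem Ind.one {e : Fin m → X} : Ind bar e (1 : G) 1 := fun i => Or.inl (by simp)

theorem Ind.inv (hs : Sgn G X bar) {e : Fin m → X} {σ : G} {π : Equiv.Perm (Fin m)}
    (h1 : Ind bar e σ π) : Ind bar e σ⁻¹ π⁻¹ := by
  intro i
  rcases h1 (π⁻¹ i) with h | h
  · left
    rw [inv_smul_eq_iff, h]; simp
  · right
    rw [inv_smul_eq_iff, ← hs.comm, h, hs.bb]; simp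

theorem Ind.pow (hs : Sgn G X bar) {e : Fin m → X} {σ : G} {π : Equiv.Perm (Fin m)}
    (h1 : Ind bar e σ π) (n : ℕ) : Ind bar e (σ ^ n) (π ^ n) := by
  induction n with
  | zero => rw [pow_zero, pow_zero]; exact Ind.one
  | succ n ih => rw [pow_succ, pow_succ]; exact ih.mul hs h1

/-- representatives of the pairs in a set which is invariant under the involution -/
theorem reps (hs : Sgn G X bar) [Finite X] (F : Set X) (hF : ∀ x ∈ F, bar x ∈ F) (n : ℕ) (hn : F.ncard = 2 * n) :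
    ∃ e : Fin n → X, (∀ i, e i ∈ F) ∧ (∀ i j, i ≠ j → e i ≠ e j ∧ e i ≠ bar (e j)) ∧
      ∀ x ∈ F, ∃ i, x = e i ∨ x = bar (e i) := by
  classical
  obtain ⟨N, ⟨ε⟩⟩ := Finite.exists_equiv_fin X
  obtain ⟨R, hR⟩ : ∃ R : Set X, R = {x | x ∈ F ∧ ε x < ε (bar x)} := ⟨_, rfl⟩
  have hFR : F = R ∪ bar '' R := by
    ext x
    constructor
    · intro hx
      rcases lt_trichotomy (ε x) (ε (bar x)) with h | h | h
      · left; rw [hR]; exact ⟨hx, h⟩
      · exact absurd (ε.injective h).symm (hs.ne x)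
      · right
        refine ⟨bar x, ?_, hs.bb x⟩
        rw [hR]
        refine ⟨hF x hx, ?_⟩
        rw [hs.bb]
        exact h
    · rintro (h | ⟨y, h, rfl⟩)
      · rw [hR] at h; exact h.1
      · rw [hR] at h; exact hF y h.1
  have hdis : Disjoint R (bar '' R) := by
    rw [Set.disjoint_left]
    rintro x h ⟨y, h2, rfl⟩
    rw [hR] at h h2
    have h3 := h.2
    rw [hs.bb] at h3
    exact absurd h3 (not_lt.2 h2.2.le)
  have hRn : R.ncard = n := by
    have h1 : F.ncard = R.ncard + (bar '' R).ncard := by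
      rw [hFR, Set.ncard_union_eq hdis (Set.toFinite _) (Set.toFinite _)]
    rw [Set.ncard_image_of_injective _ (bar_inj hs), hn] at h1
    omega
  have hRc : Nat.card R = n := hRn
  obtain ⟨θ⟩ : Nonempty (Fin n ≃ R) := by
    haveI : Finite R := Set.toFinite R
    rw [← hRc]
    exact ⟨(Finite.equivFin R).symm⟩
  refine ⟨fun i => (θ i : X), ?_, ?_, ?_⟩
  · intro i
    have h1 : ((θ i : X)) ∈ R := (θ i).2
    have h2 : ∀ x ∈ R, x ∈ F := by
      intro x hx
      rw [hR] at hx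
      exact hx.1
    exact h2 _ h1
  · intro i j hij
    constructor
    · intro h
      exact hij (θ.injective (Subtype.ext h))
    · intro h
      exact Set.disjoint_left.1 hdis (θ i).2 ⟨θ j, (θ j).2, h.symm⟩
  · intro x hx
    rw [hFR] at hx
    rcases hx with h | ⟨y, h, rfl⟩
    · exact ⟨θ.symm ⟨x, h⟩, Or.inl (by simp)⟩
    · exact ⟨θ.symm ⟨y, h⟩, Or.inr (by simp)⟩

end

theorem t_END : S_SYL → S_TRI := by
  intro hsyl G X _ _ _ _ bar g r hs hX hr h5 hg2 hg3 τ x₀ h hmt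
  classical
  haveI : Fact r.Prime := ⟨hr⟩
  have hr0 : 0 < r := by omega
  obtain ⟨C, hC⟩ : ∃ C : Set X, C = CC bar τ x₀ := ⟨_, rfl⟩
  have hCbar : ∀ x ∈ C, bar x ∈ C := by
    intro x hx
    rw [hC] at hx ⊢
    obtain ⟨k, hk | hk⟩ := hx
    · exact ⟨k, Or.inr (by rw [hk])⟩
    · exact ⟨k, Or.inl (by rw [hk, hs.bb])⟩
  have hCc : (Cᶜ).ncard = 2 * (g - r) := by
    have h1 := Set.ncard_add_ncard_compl C
    rw [hX] at h1
    have h2 : C.ncard = 2 * r := by rw [hC]; exact CC_card hs hr0 h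
    omega
  obtain ⟨e, heF, heD, heC⟩ := reps hs Cᶜ (fun x hx hc => hx (by have := hCbar _ hc; rwa [hs.bb] at this)) (g - r) hCc
  have hm3 : 3 ≤ g - r := by omega
  obtain ⟨a, ha⟩ : ∃ a : Fin (g - r), a = ⟨0, by omega⟩ := ⟨_, rfl⟩
  obtain ⟨b, hb⟩ : ∃ b : Fin (g - r), b = ⟨1, by omega⟩ := ⟨_, rfl⟩
  obtain ⟨c, hc⟩ : ∃ c : Fin (g - r), c = ⟨2, by omega⟩ := ⟨_, rfl⟩
  have hab : a ≠ b := by rw [ha, hb]; simp [Fin.ext_iff]
  have hac : a ≠ c := by rw [ha, hc]; simp [Fin.ext_iff]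
  have hbc : b ≠ c := by rw [hb, hc]; simp [Fin.ext_iff]
  -- elements of `G` which induce a permutation preserve the cycle
  have hpres : ∀ (σ : G) (π : Equiv.Perm (Fin (g - r))), Ind bar e σ π → ∀ x ∈ C, σ • x ∈ C := by
    intro σ π hσ x hx
    by_contra hcc
    obtain ⟨i, hi | hi⟩ := heC _ hcc
    · rcases hσ.inv hs i with h1 | h1
      · rw [← hi, inv_smul_smul] at h1
        exact heF _ (h1 ▸ hx)
      · rw [← hi, inv_smul_smul] at h1
        have h2 := hCbar _ hx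
        rw [h1, hs.bb] at h2
        exact heF _ h2
    · have h0 : x = bar (σ⁻¹ • e i) := by
        rw [hs.comm, ← hi, inv_smul_smul]
      rcases hσ.inv hs i with h1 | h1
      · rw [h1] at h0
        have h2 := hCbar _ hx
        rw [h0, hs.bb] at h2
        exact heF _ h2
      · rw [h1, hs.bb] at h0
        exact heF _ (h0 ▸ hx)
  -- elements which normalise the cycle
  have hnorm : ∀ π : Equiv.Perm (Fin (g - r)), ∃ (u : G) (i : ℤ), Ind bar e u π ∧ ∀ x : X, (u * τ * u⁻¹) • x = τ ^ i • x := by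
    intro π
    obtain ⟨u', hu'⟩ := hmt e (fun i => e (π i)) heD (fun i j hij => heD _ _ (fun h => hij (π.injective h)))
    have hu'C := hpres u' π hu'
    rw [hC] at hu'C
    obtain ⟨η, i, h1, h2⟩ := hsyl G X bar r hs hr h5 τ x₀ h u' hu'C
    refine ⟨η * u', i, ?_, h2⟩
    intro j
    rw [mul_smul]
    have h3 : ∀ l, η • e l = e l := by
      intro l
      apply h1
      have := heF l
      rw [hC] at this
      exact this
    rcases hu' j with h4 | h4
    · left; rw [h4, h3]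
    · right; rw [h4, ← hs.comm, h3]
  obtain ⟨u, i, hui, hut⟩ := hnorm (Equiv.swap a b)
  obtain ⟨v, j, hvi, hvt⟩ := hnorm (Equiv.swap a c)
  obtain ⟨κ, hκ⟩ : ∃ κ : Equiv.Perm (Fin (g - r)), κ = Equiv.swap a b * Equiv.swap a c := ⟨_, rfl⟩
  have hκ3 : κ ^ 3 = 1 := by
    have h1 : κ.IsThreeCycle := by rw [hκ]; exact Equiv.Perm.isThreeCycle_swap_mul_swap_same hab hac hbc
    rw [← h1.orderOf]
    exact pow_orderOf_eq_one κ
  have hκa : κ a = c := by
    rw [hκ, Equiv.Perm.mul_apply, Equiv.swap_apply_left, Equiv.swap_apply_of_ne_of_ne hac.symm hbc.symm]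
  have hκc : κ c = b := by
    rw [hκ, Equiv.Perm.mul_apply, Equiv.swap_apply_right, Equiv.swap_apply_left]
  have hκx : ∀ l, l ≠ a → l ≠ b → l ≠ c → κ l = l := by
    intro l h1 h2 h3
    rw [hκ, Equiv.Perm.mul_apply, Equiv.swap_apply_of_ne_of_ne h1 h3, Equiv.swap_apply_of_ne_of_ne h1 h2]
  -- the commutator
  obtain ⟨n, hn⟩ : ∃ n : G, n = (v * u)⁻¹ * (u * v) := ⟨_, rfl⟩
  obtain ⟨φ, hφ⟩ : ∃ φ : G →* Equiv.Perm X, φ = MulAction.toPermHom G X := ⟨_, rfl⟩
  have hφx : ∀ (g : G) (x : X), φ g x = g • x := by intro g x; rw [hφ]; rfl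
  have hU : φ u * φ τ * (φ u)⁻¹ = φ τ ^ i := by
    rw [← map_inv, ← map_mul, ← map_mul, ← map_zpow]
    ext x
    rw [hφx, hφx, hut]
  have hV : φ v * φ τ * (φ v)⁻¹ = φ τ ^ j := by
    rw [← map_inv, ← map_mul, ← map_mul, ← map_zpow]
    ext x
    rw [hφx, hφx, hvt]
  have hUV : φ (u * v) * φ τ * (φ (u * v))⁻¹ = φ τ ^ (i * j) := by
    have h1 : φ (u * v) * φ τ * (φ (u * v))⁻¹ = φ u * (φ v * φ τ * (φ v)⁻¹) * (φ u)⁻¹ := by
      rw [map_mul]; group
    rw [h1, hV, ← conj_zpow, hU, ← zpow_mul]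
  have hVU : φ (v * u) * φ τ * (φ (v * u))⁻¹ = φ τ ^ (i * j) := by
    have h1 : φ (v * u) * φ τ * (φ (v * u))⁻¹ = φ v * (φ u * φ τ * (φ u)⁻¹) * (φ v)⁻¹ := by
      rw [map_mul]; group
    rw [h1, hU, ← conj_zpow, hV, ← zpow_mul, mul_comm j i]
  have hnτ : φ n * φ τ = φ τ * φ n := by
    have h1 : φ n * φ τ * (φ n)⁻¹ = (φ (v * u))⁻¹ * (φ (u * v) * φ τ * (φ (u * v))⁻¹) * φ (v * u) := by
      rw [hn, map_mul, map_inv]; group
    have h2 : φ n * φ τ * (φ n)⁻¹ = φ τ := by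
      rw [h1, hUV, ← hVU]; group
    calc φ n * φ τ = φ n * φ τ * (φ n)⁻¹ * φ n := by group
      _ = φ τ * φ n := by rw [h2]
  have hni : Ind bar e n (κ ^ 2) := by
    have h1 := ((hvi.mul hs hui).inv hs).mul hs (hui.mul hs hvi)
    have h2 : (Equiv.swap a c * Equiv.swap a b)⁻¹ * (Equiv.swap a b * Equiv.swap a c) = κ ^ 2 := by
      rw [mul_inv_rev, Equiv.swap_inv, Equiv.swap_inv, ← hκ, sq]
    rw [h2] at h1
    rw [hn]
    exact h1
  -- `n x₀`
  have hx0 : x₀ ∈ C := by rw [hC]; exact ⟨0, Or.inl (by simp)⟩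
  obtain ⟨k, hk⟩ : ∃ k : ℕ, n • x₀ = τ ^ k • x₀ ∨ n • x₀ = bar (τ ^ k • x₀) := by
    have := hpres n _ hni x₀ hx0
    rw [hC] at this
    exact this
  obtain ⟨y, hy⟩ : ∃ y : G, y = (τ ^ k)⁻¹ * n := ⟨_, rfl⟩
  have hτe : ∀ l, τ • e l = e l := by
    intro l
    rcases h.fix (e l) with h1 | h1
    · have := heF l
      rw [hC] at this
      exact absurd h1 this
    · exact h1
  have hτk : ∀ l, (τ ^ k)⁻¹ • e l = e l := by
    intro l
    rw [inv_smul_eq_iff]
    have : ∀ q : ℕ, τ ^ q • e l = e l := by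
      intro q
      induction q with
      | zero => simp
      | succ q ih => rw [pow_succ, mul_smul, hτe, ih]
    exact (this k).symm
  have hyi : Ind bar e y (κ ^ 2) := by
    intro l
    rw [hy, mul_smul]
    rcases hni l with h1 | h1
    · left; rw [h1, hτk]
    · right; rw [h1, ← hs.comm, hτk]
  have hyτ : Commute (φ y) (φ τ) := by
    rw [hy, map_mul, map_inv, map_pow]
    have h1 : Commute (φ n) (φ τ) := hnτ
    have h2 : Commute ((φ τ ^ k)⁻¹) (φ τ) := ((Commute.refl (φ τ)).pow_left k).inv_left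
    exact h2.mul_left h1
  have hy0 : y • x₀ = x₀ ∨ y • x₀ = bar x₀ := by
    rw [hy, mul_smul]
    rcases hk with h1 | h1
    · left; rw [h1, inv_smul_smul]
    · right; rw [h1, ← hs.comm, inv_smul_smul]
  have hyl : ∀ l : ℕ, y • τ ^ l • x₀ = τ ^ l • y • x₀ := by
    intro l
    have h1 : φ y * φ τ ^ l = φ τ ^ l * φ y := (hyτ.pow_right l)
    rw [← map_pow, ← map_mul, ← map_mul] at h1
    have h2 := congrArg (fun π : Equiv.Perm X => π x₀) h1
    simp only [hφx, mul_smul] at h2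
    exact h2
  have hy2 : ∀ x ∈ C, y ^ 2 • x = x := by
    have h1 : ∀ l : ℕ, y ^ 2 • τ ^ l • x₀ = τ ^ l • x₀ := by
      intro l
      rw [sq, mul_smul, hyl]
      rcases hy0 with h1 | h1
      · rw [h1, hyl, h1]
      · rw [h1, ← hs.comm, ← hs.comm, hyl, h1, ← hs.comm, hs.bb]
    intro x hx
    rw [hC] at hx
    obtain ⟨l, hl | hl⟩ := hx
    · rw [hl, h1]
    · rw [hl, ← hs.comm, h1]
  -- the pure cycle of length three
  obtain ⟨z, hz⟩ : ∃ z : G, z = y ^ 8 := ⟨_, rfl⟩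
  have hzi : Ind bar e z κ := by
    have h1 := hyi.pow hs 8
    have h2 : (κ ^ 2) ^ 8 = κ := by
      rw [← pow_mul, show 2 * 8 = 3 * 5 + 1 from rfl, pow_succ, pow_mul, hκ3, one_pow, one_mul]
    rw [h2] at h1
    rw [hz]
    exact h1
  have hzC : ∀ x ∈ C, z • x = x := by
    intro x hx
    rw [hz, show 8 = 2 * 4 from rfl, pow_mul]
    have : ∀ q : ℕ, (y ^ 2) ^ q • x = x := by
      intro q
      induction q with
      | zero => simp
      | succ q ih => rw [pow_succ, mul_smul, hy2 x hx, ih]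
    exact this 4
  -- squares of elements with signs
  have hsq : ∀ (w : G) (x : X), (w • x = x ∨ w • x = bar x) → w ^ 2 • x = x := by
    intro w x hw
    rw [sq, mul_smul]
    rcases hw with h1 | h1
    · rw [h1, h1]
    · rw [h1, ← hs.comm, h1, hs.bb]
  have hsq' : ∀ (w : G) (x : X) (q : ℕ), w • x = x → w ^ q • x = x := by
    intro w x q hw
    induction q with
    | zero => simp
    | succ q ih => rw [pow_succ, mul_smul, hw, ih]
  have hze : ∀ l, l ≠ a → l ≠ b → l ≠ c → z • e l = e l := by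
    intro l h1 h2 h3
    have h4 : (κ ^ 2) l = l := by
      rw [sq, Equiv.Perm.mul_apply, hκx l h1 h2 h3, hκx l h1 h2 h3]
    have h5 := hyi l
    rw [h4] at h5
    have h6 := hsq y (e l) h5
    rw [hz, show 8 = 2 * 4 from rfl, pow_mul]
    exact hsq' _ _ _ h6
  have hz3 : z ^ 3 • e a = e a := by
    have h1 := hyi.pow hs 3 a
    have h2 : ((κ ^ 2) ^ 3) = 1 := by rw [← pow_mul, mul_comm, pow_mul, hκ3, one_pow]
    rw [h2, Equiv.Perm.one_apply] at h1
    have h3 := hsq (y ^ 3) (e a) h1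
    rw [hz, ← pow_mul, show 8 * 3 = 3 * 2 * 4 from rfl, pow_mul, pow_mul]
    exact hsq' _ _ _ h3
  have hzk : ∀ q : ℕ, z ^ q • e a = e ((κ ^ q) a) ∨ z ^ q • e a = bar (e ((κ ^ q) a)) := fun q => hzi.pow hs q a
  have hz3q : ∀ q : ℕ, z ^ (3 * q) • e a = e a := by
    intro q
    rw [pow_mul]
    exact hsq' _ _ _ hz3
  have hzmod : ∀ q : ℕ, z ^ q • e a = z ^ (q % 3) • e a := by
    intro q
    conv_lhs => rw [← Nat.mod_add_div q 3, pow_add, mul_smul, hz3q]
  have hκ0 : (κ ^ 0) a = a := by simp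
  have hκ1 : (κ ^ 1) a = c := by rw [pow_one, hκa]
  have hκ2 : (κ ^ 2) a = b := by rw [sq, Equiv.Perm.mul_apply, hκa, hκc]
  have hκmod : ∀ q : ℕ, (κ ^ q) a = (κ ^ (q % 3)) a := by
    intro q
    conv_lhs => rw [← Nat.mod_add_div q 3, pow_add, pow_mul, hκ3, one_pow, mul_one]
  have hκinj : ∀ k < 3, ∀ l < 3, (κ ^ k) a = (κ ^ l) a → k = l := by
    intro k hk l hl hkl
    interval_cases k <;> interval_cases l <;> simp only [hκ0, hκ1, hκ2] at hkl <;>
      first | rfl | exact absurd hkl hab | exact absurd hkl hac | exact absurd hkl hbc |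
        exact absurd hkl.symm hab | exact absurd hkl.symm hac | exact absurd hkl.symm hbc
  -- equal positions give equal indices
  have hidx : ∀ (k l : ℕ), (z ^ k • e a = z ^ l • e a ∨ z ^ k • e a = bar (z ^ l • e a)) → (κ ^ k) a = (κ ^ l) a := by
    intro k l hkl
    by_contra hne
    have h1 := heD _ _ hne
    rcases hzk k with h2 | h2 <;> rcases hzk l with h3 | h3 <;> rw [h2, h3] at hkl <;> rcases hkl with h4 | h4
    · exact h1.1 h4
    · exact h1.2 h4
    · exact h1.2 h4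
    · rw [hs.bb] at h4; exact h1.1 h4
    · exact h1.2 (by rw [← h4, hs.bb])
    · exact h1.1 (bar_inj hs h4)
    · exact h1.1 (bar_inj hs h4)
    · rw [hs.bb] at h4; exact h1.2 (by rw [← h4, hs.bb])
  refine ⟨z, e a, hz3, ?_, ?_, ?_⟩
  · intro k hk l hl hkl
    exact hκinj k hk l hl (hidx k l (Or.inl hkl))
  · intro k l hkl
    have h1 := hidx k l (Or.inr hkl)
    rw [hκmod k, hκmod l] at h1
    have h2 := hκinj _ (Nat.mod_lt _ (by norm_num)) _ (Nat.mod_lt _ (by norm_num)) h1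
    rw [hzmod k, hzmod l, h2] at hkl
    exact hs.ne _ hkl.symm
  · intro x
    by_cases hxC : x ∈ C
    · exact Or.inr (hzC x hxC)
    · obtain ⟨l, hl⟩ := heC x hxC
      by_cases hl3 : l = a ∨ l = b ∨ l = c
      · left
        obtain ⟨q, hq⟩ : ∃ q : ℕ, (κ ^ q) a = l := by
          rcases hl3 with h1 | h1 | h1
          · exact ⟨0, by rw [hκ0, h1]⟩
          · exact ⟨2, by rw [hκ2, h1]⟩
          · exact ⟨1, by rw [hκ1, h1]⟩
        refine ⟨q, ?_⟩
        have h1 := hzk q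
        rw [hq] at h1
        rcases hl with h2 | h2 <;> rcases h1 with h3 | h3
        · left; rw [h2, h3]
        · right; rw [h2, h3, hs.bb]
        · right; rw [h2, h3]
        · left; rw [h2, h3]
      · right
        push Not at hl3
        have h1 := hze l hl3.1 hl3.2.1 hl3.2.2
        rcases hl with h2 | h2
        · rw [h2, h1]
        · rw [h2, ← hs.comm, h1]

theorem t_TRI : S_TRI := t_END t_SYL

end Pool.Agent.J4H72.BF
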